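import Pool.Agent.Helper27.CB.St

/-!
Project CB (helper27), module CTN (continuity of the radial function and of the norm).
-/

open MeasureTheory Set
open scoped ENNReal Pointwise Topology

set_option autoImplicit false

namespace Pool.Agent.Helper3.CB

open Pool.Agent.Helper27.CB

theorem zero_mem_int {D : Set P2} (hD : Bd D) (hs : Sy D) : (0 : P2) ∈ interior D := by
  obtain ⟨x, hx⟩ := hD.int
  have hx' : -x ∈ D := hs x (interior_subset hx)
  have := hD.cvx.combo_interior_self_mem_interior hx hx' (a := 1 / 2) (b := 1 / 2)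
    (by norm_num) (by norm_num) (by norm_num)
  simpa using this

theorem nhds_zero {D : Set P2} (hD : Bd D) (hs : Sy D) : D ∈ 𝓝 (0 : P2) :=
  mem_interior_iff_mem_nhds.1 (zero_mem_int hD hs)

/-- unit vector -/
noncomputable def ev (φ : ℝ) : P2 := (Real.cos φ, Real.sin φ)

theorem ev_ne (φ : ℝ) : ev φ ≠ 0 := by
  intro h
  have h1 : Real.cos φ = 0 := congrArg Prod.fst h
  have h2 : Real.sin φ = 0 := congrArg Prod.snd h
  have := Real.sin_sq_add_cos_sq φ
  rw [h1, h2] at this
  norm_num at this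

theorem gauge_ev_pos {D : Set P2} (hD : Bd D) (hs : Sy D) (φ : ℝ) : 0 < gauge D (ev φ) := by
  rw [gauge_pos (absorbent_nhds_zero (nhds_zero hD hs))
    (NormedSpace.isVonNBounded_of_isBounded _ hD.cpt.isBounded)]
  exact ev_ne φ

theorem mem_iff_gauge {D : Set P2} (hD : Bd D) (hs : Sy D) (φ s : ℝ) (h0 : 0 ≤ s) :
    ((s * Real.cos φ, s * Real.sin φ) : P2) ∈ D ↔ s ≤ (gauge D (ev φ))⁻¹ := by
  have h1 : ((s * Real.cos φ, s * Real.sin φ) : P2) = s • ev φ := rfl
  rw [h1]
  have h2 := gauge_le_one_iff_mem_closure (x := s • ev φ) hD.cvx (nhds_zero hD hs)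
  rw [hD.cpt.isClosed.closure_eq] at h2
  rw [← h2, gauge_smul_of_nonneg h0, smul_eq_mul]
  have h3 := gauge_ev_pos hD hs φ
  rw [← one_div, le_div_iff₀ h3]

theorem rad_eq {D : Set P2} (hD : Bd D) (hs : Sy D) (φ : ℝ) :
    rad D φ = (gauge D (ev φ))⁻¹ := by
  have h3 := gauge_ev_pos hD hs φ
  unfold rad
  apply IsGreatest.csSup_eq
  constructor
  · exact (mem_iff_gauge hD hs φ _ (inv_nonneg.2 h3.le)).2 le_rfl
  · intro s hsm
    by_cases h0 : 0 ≤ s
    · exact (mem_iff_gauge hD hs φ s h0).1 hsm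
    · exact (not_le.1 h0).le.trans (inv_nonneg.2 h3.le)

theorem det_cont : Continuous (fun p : P2 × P2 => |det2 p.1 p.2|) := by
  unfold det2
  fun_prop

theorem bdd_img {D : Set P2} (hD : Bd D) (z : P2) : BddAbove ((fun y => |det2 z y|) '' D) := by
  apply (hD.cpt.image_of_continuousOn _).bddAbove
  have : Continuous (fun y : P2 => |det2 z y|) := by unfold det2; fun_prop
  exact this.continuousOn

theorem hCTN : StCTN := by
  intro D hD hs
  have hle : ∀ z y, y ∈ D → |det2 z y| ≤ nrm D z := fun z y hy =>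
    le_csSup (bdd_img hD z) (mem_image_of_mem _ hy)
  refine ⟨?_, ?_, ?_, ?_, ?_, ?_, ?_, hle⟩
  · have h1 : rad D = fun φ => (gauge D (ev φ))⁻¹ := funext (rad_eq hD hs)
    rw [h1]
    apply Continuous.inv₀
    · apply (continuous_gauge hD.cvx (nhds_zero hD hs)).comp
      unfold ev
      fun_prop
    · intro φ
      exact (gauge_ev_pos hD hs φ).ne'
  · exact IsCompact.continuous_sSup hD.cpt det_cont
  · intro φ
    rw [rad_eq hD hs]
    exact inv_pos.2 (gauge_ev_pos hD hs φ)
  · intro φ s h0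
    rw [rad_eq hD hs]
    exact mem_iff_gauge hD hs φ s h0
  · intro a z ha
    unfold nrm
    have h1 : (fun y => |det2 (a • z) y|) '' D = a • ((fun y => |det2 z y|) '' D) := by
      rw [← Set.image_smul, Set.image_image]
      apply Set.image_congr
      intro y _
      rw [smul_eq_mul]
      nth_rewrite 2 [← abs_of_nonneg ha]
      rw [← abs_mul]
      congr 1
      unfold det2
      simp only [Prod.smul_fst, Prod.smul_snd, smul_eq_mul]
      ring
    rw [h1, Real.sSup_smul_of_nonneg ha, smul_eq_mul]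
  · intro z
    apply Real.sSup_nonneg
    rintro _ ⟨y, _, rfl⟩
    exact abs_nonneg _
  · intro z hz
    have hcont : Filter.Tendsto (fun ε : ℝ => ε • ((-z.2, z.1) : P2)) (𝓝 0) (𝓝 0) := by
      have : Continuous (fun ε : ℝ => ε • ((-z.2, z.1) : P2)) := by fun_prop
      have h := this.tendsto 0
      simpa using h
    have h1 := hcont.eventually (nhds_zero hD hs)
    have h2 : ∀ᶠ ε : ℝ in 𝓝[>] 0, ε • ((-z.2, z.1) : P2) ∈ D :=
      h1.filter_mono nhdsWithin_le_nhds
    obtain ⟨ε, hε, hεD⟩ := (h2.and self_mem_nhdsWithin).exists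
    have h3 := hle z _ hε
    have h4 : det2 z (ε • ((-z.2, z.1) : P2)) = ε * (z.1 ^ 2 + z.2 ^ 2) := by
      unfold det2
      simp only [Prod.smul_fst, Prod.smul_snd, smul_eq_mul]
      ring
    rw [h4] at h3
    have h5 : 0 < z.1 ^ 2 + z.2 ^ 2 := by
      rcases eq_or_ne z.1 0 with h | h
      · have : z.2 ≠ 0 := by
          intro h'
          exact hz (Prod.ext h h')
        positivity
      · positivity
    have h6 : 0 < ε := hεD
    calc 0 < ε * (z.1 ^ 2 + z.2 ^ 2) := mul_pos h6 h5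
      _ ≤ _ := le_abs_self _
      _ ≤ _ := h3

end Pool.Agent.Helper3.CB
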