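import Pool.Agent.Helper27.CB.St

/-!
Project CB (helper27), module DIS (mean of the norm and the volume product).
-/

open MeasureTheory Set
open scoped ENNReal Pointwise Topology

set_option autoImplicit false

namespace Pool.Agent.Helper3.CB.Dis

open Pool.Agent.Helper27.CB

theorem plr_eq (hCTN : StCTN) {D : Set P2} (hD : Bd D) (hs : Sy D) :
    plr D = {z | nrm D z ≤ 1} := by
  obtain ⟨_, _, _, _, _, _, _, hle⟩ := hCTN D hD hs
  have hne : D.Nonempty := hD.int.mono interior_subset
  ext z
  constructor
  · intro hz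
    change nrm D z ≤ 1
    apply csSup_le (hne.image _)
    rintro _ ⟨y, hy, rfl⟩
    exact hz y hy
  · intro hz y hy
    exact (hle z y hy).trans hz

theorem smul_eq (hCTN : StCTN) {D : Set P2} (hD : Bd D) (hs : Sy D) {s : ℝ} (h0 : 0 < s) :
    {z | nrm D z ≤ s} = s • plr D := by
  obtain ⟨_, _, _, _, hhom, _, _, _⟩ := hCTN D hD hs
  ext z
  rw [mem_smul_set_iff_inv_smul_mem₀ h0.ne', plr_eq hCTN hD hs, mem_ofPred_eq, mem_ofPred_eq,
    hhom _ _ (inv_nonneg.2 h0.le), inv_mul_le_iff₀ h0, mul_one]

theorem vol_smul (hCTN : StCTN) {D : Set P2} (hD : Bd D) (hs : Sy D) {s : ℝ} (h0 : 0 < s) :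
    volume.real {z | nrm D z ≤ s} = s ^ 2 * vl (plr D) := by
  rw [smul_eq hCTN hD hs h0, measureReal_def, Measure.addHaar_smul, ENNReal.toReal_mul]
  have h1 : Module.finrank ℝ P2 = 2 := by
    simp [Module.finrank_prod]
  rw [h1, ENNReal.toReal_ofReal (abs_nonneg _), abs_of_nonneg (by positivity)]
  rfl

theorem vl_pos {D : Set P2} (hD : Bd D) : 0 < vl D := by
  unfold vl
  apply ENNReal.toReal_pos
  · exact ((isOpen_interior.measure_pos volume hD.int).trans_le
      (measure_mono interior_subset)).ne'
  · exact hD.cpt.measure_lt_top.ne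

theorem hDIS (hCTN : StCTN) (hPLR : StPLR) : StDIS := by
  intro D hD hs
  obtain ⟨_, hn, _, _, hhom, hn0, _, _⟩ := hCTN D hD hs
  obtain ⟨hP, _⟩ := hPLR D hD hs
  set V := vl D with hV
  set P := vl (plr D) with hPd
  have hV0 : 0 < V := vl_pos hD
  have hP0 : 0 < P := vl_pos hP
  set T := Real.sqrt (V / P) with hT
  have hT0 : 0 < T := Real.sqrt_pos.2 (div_pos hV0 hP0)
  have hT2 : T ^ 2 * P = V := by
    rw [hT, Real.sq_sqrt (div_pos hV0 hP0).le]
    field_simp
  let f : P2 → ℝ := fun z => max (T - nrm D z) 0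
  have hfc : Continuous f := (continuous_const.sub hn).max continuous_const
  have hfi : Integrable f := by
    apply hfc.integrable_of_hasCompactSupport
    apply HasCompactSupport.intro (K := T • plr D) (hP.cpt.smul T)
    intro z hz
    rw [← smul_eq hCTN hD hs hT0, mem_ofPred_eq, not_le] at hz
    exact max_eq_right (by linarith)
  have hf0 : ∀ z, 0 ≤ f z := fun z => le_max_right _ _
  have hlay : ∫ z, f z = P * T ^ 3 / 3 := by
    rw [hfi.integral_eq_integral_meas_le (Filter.Eventually.of_forall hf0)]
    have h1 : ∫ t in Ioi (0 : ℝ), volume.real {z | t ≤ f z} =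
        ∫ t in Ioi (0 : ℝ), (Ioo 0 T).indicator (fun t => (T - t) ^ 2 * P) t := by
      have hne : ∀ᵐ t : ℝ ∂(volume.restrict (Ioi (0 : ℝ))), t ≠ T := by
        apply ae_restrict_of_ae
        rw [ae_iff]
        simp
      apply integral_congr_ae
      filter_upwards [ae_restrict_mem measurableSet_Ioi, hne] with t ht htT
      have ht0 : (0 : ℝ) < t := ht
      rcases lt_or_gt_of_ne htT with h | h
      · rw [indicator_of_mem (show t ∈ Ioo 0 T from ⟨ht0, h⟩)]
        have : {z | t ≤ f z} = {z | nrm D z ≤ T - t} := by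
          ext z
          simp only [f, mem_ofPred_eq, le_max_iff]
          constructor
          · rintro (h' | h')
            · linarith
            · linarith
          · intro h'
            left
            linarith
        rw [this, vol_smul hCTN hD hs (by linarith)]
      · rw [indicator_of_notMem (fun h' : t ∈ Ioo 0 T => absurd h'.2 (not_lt.2 h.le))]
        have : {z | t ≤ f z} = ∅ := by
          ext z
          simp only [f, mem_ofPred_eq, le_max_iff, mem_empty_iff_false, iff_false, not_or, not_le]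
          exact ⟨by linarith [hn0 z], ht0⟩
        rw [this, measureReal_empty]
    rw [h1, setIntegral_indicator measurableSet_Ioo]
    have h2 : Ioi (0 : ℝ) ∩ Ioo 0 T = Ioo 0 T := inter_eq_right.2 fun x hx => hx.1
    rw [h2, ← integral_Ioc_eq_integral_Ioo, ← intervalIntegral.integral_of_le hT0.le,
      intervalIntegral.integral_mul_const]
    have h3 : ∫ t in (0 : ℝ)..T, (T - t) ^ 2 = T ^ 3 / 3 := by
      have := intervalIntegral.integral_comp_sub_left (a := 0) (b := T) (fun x : ℝ => x ^ 2) T
      simp only [sub_self, sub_zero] at this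
      rw [this, integral_pow]
      norm_num
    rw [h3]
    ring
  have hnD : IntegrableOn (nrm D) D := hn.continuousOn.integrableOn_compact hD.cpt
  have hcD : IntegrableOn (fun _ : P2 => T) D := by
    exact continuousOn_const.integrableOn_compact hD.cpt
  have h5 : T * V - P * T ^ 3 / 3 ≤ ∫ z in D, nrm D z := by
    have h6 : ∫ z in D, (T - f z) = T * V - ∫ z in D, f z := by
      rw [integral_sub hcD hfi.integrableOn, setIntegral_const, smul_eq_mul]
      rw [mul_comm]
      rfl
    have h7 : ∫ z in D, f z ≤ ∫ z, f z :=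
      setIntegral_le_integral hfi (Filter.Eventually.of_forall hf0)
    have h8 : ∫ z in D, (T - f z) ≤ ∫ z in D, nrm D z := by
      apply setIntegral_mono (hcD.sub hfi.integrableOn) hnD
      intro z
      change T - max (T - nrm D z) 0 ≤ nrm D z
      rcases le_total (T - nrm D z) 0 with h | h
      · rw [max_eq_right h]; linarith
      · rw [max_eq_left h]; linarith
    rw [hlay] at h7
    linarith
  set J := ∫ z in D, nrm D z with hJ
  have h9 : 2 / 3 * (T * V) ≤ J := by
    have : P * T ^ 3 / 3 = T * V / 3 := by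
      rw [← hT2]; ring
    linarith
  have h10 : (2 / 3 * (T * V)) ^ 2 ≤ J ^ 2 :=
    pow_le_pow_left₀ (by positivity) h9 2
  have h11 : 9 * P * (2 / 3 * (T * V)) ^ 2 = 4 * V ^ 3 := by
    have : 9 * P * (2 / 3 * (T * V)) ^ 2 = 4 * (T ^ 2 * P) * V ^ 2 := by ring
    rw [this, hT2]; ring
  calc 4 * V ^ 3 = 9 * P * (2 / 3 * (T * V)) ^ 2 := h11.symm
    _ ≤ 9 * P * J ^ 2 := by gcongr

end Pool.Agent.Helper3.CB.Dis
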