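import Pool.Agent.Helper27.CB.St

/-!
Project CB (helper27), module POL (polar coordinates).
-/

open MeasureTheory Set
open scoped ENNReal Pointwise Topology

set_option autoImplicit false

namespace Pool.Agent.Helper3.CB.Pol

open Pool.Agent.Helper27.CB

/-- polar coordinates for a function which in polar coordinates is `r ^ k * h φ` inside of `D`
and `0` outside -/
theorem polar_gen (F : P2 → ℝ) (ρ h : ℝ → ℝ) (k : ℕ) (hρ : Continuous ρ) (hh : Continuous h)
    (hρ0 : ∀ φ, 0 ≤ ρ φ)
    (hF : ∀ r φ : ℝ, 0 < r → F (r * Real.cos φ, r * Real.sin φ) =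
      if r ≤ ρ φ then r ^ k * h φ else 0) :
    ∫ z, F z = ∫ φ in Ioo (-Real.pi) Real.pi, ρ φ ^ (k + 2) / (k + 2) * h φ := by
  rw [← integral_comp_polarCoord_symm F]
  have htarget : polarCoord.target = Ioi (0 : ℝ) ×ˢ Ioo (-Real.pi) Real.pi := rfl
  rw [htarget]
  -- rewrite the integrand
  have h1 : ∫ p in Ioi (0 : ℝ) ×ˢ Ioo (-Real.pi) Real.pi, p.1 • F (polarCoord.symm p) =
      ∫ p in Ioi (0 : ℝ) ×ˢ Ioo (-Real.pi) Real.pi,
        (if p.1 ≤ ρ p.2 then p.1 ^ (k + 1) * h p.2 else 0) := by
    apply setIntegral_congr_fun (measurableSet_Ioi.prod measurableSet_Ioo)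
    intro p hp
    have h2 : polarCoord.symm p = (p.1 * Real.cos p.2, p.1 * Real.sin p.2) := rfl
    simp only [h2, smul_eq_mul]
    rw [hF _ _ hp.1]
    split_ifs
    · ring
    · simp
  rw [h1]
  -- integrability
  obtain ⟨B, hB⟩ : ∃ B, ∀ φ ∈ Icc (-Real.pi) Real.pi, ρ φ ≤ B := by
    obtain ⟨B, hB⟩ := (isCompact_Icc (a := -Real.pi) (b := Real.pi)).bddAbove_image
      hρ.continuousOn
    exact ⟨B, fun φ hφ => hB (mem_image_of_mem _ hφ)⟩
  obtain ⟨C, hC⟩ : ∃ C, ∀ φ ∈ Icc (-Real.pi) Real.pi, ‖h φ‖ ≤ C := by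
    obtain ⟨C, hC⟩ := (isCompact_Icc (a := -Real.pi) (b := Real.pi)).bddAbove_image
      hh.norm.continuousOn
    exact ⟨C, fun φ hφ => hC (mem_image_of_mem _ hφ)⟩
  have hset : MeasurableSet {p : ℝ × ℝ | p.1 ≤ ρ p.2} :=
    measurableSet_le measurable_fst (hρ.measurable.comp measurable_snd)
  have hint : IntegrableOn (fun p : ℝ × ℝ => if p.1 ≤ ρ p.2 then p.1 ^ (k + 1) * h p.2 else 0)
      (Ioi (0 : ℝ) ×ˢ Ioo (-Real.pi) Real.pi) (volume.prod volume) := by
    have hmeas : Measurable (fun p : ℝ × ℝ => if p.1 ≤ ρ p.2 then p.1 ^ (k + 1) * h p.2 else 0) := by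
      apply Measurable.ite hset _ measurable_const
      exact (measurable_fst.pow_const _).mul (hh.measurable.comp measurable_snd)
    have h3 : IntegrableOn (fun p : ℝ × ℝ => if p.1 ≤ ρ p.2 then p.1 ^ (k + 1) * h p.2 else 0)
        (Ioc (0 : ℝ) B ×ˢ Ioo (-Real.pi) Real.pi) (volume.prod volume) := by
      apply Measure.integrableOn_of_bounded (M := |B| ^ (k + 1) * C)
      · rw [Measure.prod_prod]
        exact (ENNReal.mul_lt_top (by simp) (by simp)).ne
      · exact hmeas.aestronglyMeasurable
      · rw [ae_restrict_iff' (measurableSet_Ioc.prod measurableSet_Ioo)]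
        refine Filter.Eventually.of_forall fun p hp => ?_
        have hp1 := hp.1
        have hp2 := hp.2
        have hc := hC p.2 (Ioo_subset_Icc_self hp2)
        have hCn : 0 ≤ C := (norm_nonneg _).trans hc
        have hx : |p.1| ≤ |B| := by
          rw [abs_of_pos hp1.1]
          exact hp1.2.trans (le_abs_self B)
        have hx2 : |p.1| ^ (k + 1) ≤ |B| ^ (k + 1) := by gcongr
        split_ifs
        · rw [norm_mul, norm_pow, Real.norm_eq_abs]
          exact mul_le_mul hx2 hc (norm_nonneg _) (by positivity)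
        · rw [norm_zero]
          positivity
    apply h3.of_forall_sdiff_eq_zero (measurableSet_Ioi.prod measurableSet_Ioo)
    rintro p ⟨hp, hp'⟩
    rw [if_neg]
    intro hle
    apply hp'
    exact ⟨⟨hp.1, hle.trans (hB _ (Ioo_subset_Icc_self hp.2))⟩, hp.2⟩
  have h4 : (volume : Measure (ℝ × ℝ)).restrict (Ioi (0 : ℝ) ×ˢ Ioo (-Real.pi) Real.pi) =
      (volume.restrict (Ioi (0 : ℝ))).prod (volume.restrict (Ioo (-Real.pi) Real.pi)) := by
    rw [Measure.volume_eq_prod, Measure.prod_restrict]
  have hint' : Integrable (fun p : ℝ × ℝ => if p.1 ≤ ρ p.2 then p.1 ^ (k + 1) * h p.2 else 0)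
      ((volume.restrict (Ioi (0 : ℝ))).prod (volume.restrict (Ioo (-Real.pi) Real.pi))) := by
    rw [Measure.prod_restrict]
    exact hint
  rw [h4, integral_prod_symm _ hint']
  congr 1
  funext φ
  have h5 : (fun x : ℝ => if x ≤ ρ φ then x ^ (k + 1) * h φ else 0) =
      (Iic (ρ φ)).indicator (fun x => x ^ (k + 1) * h φ) := by
    funext x
    simp only [indicator, mem_Iic]
  simp only []
  rw [h5, setIntegral_indicator measurableSet_Iic, Ioi_inter_Iic,
    ← intervalIntegral.integral_of_le (hρ0 φ), intervalIntegral.integral_mul_const, integral_pow]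
  simp only [ne_eq, Nat.add_eq_zero_iff, one_ne_zero, and_false, not_false_eq_true, zero_pow,
    sub_zero]
  push_cast
  ring

theorem hPOL (hCTN : StCTN) : StPOL := by
  intro D hD hs
  obtain ⟨hc, hn, hpos, hmem, hhom, hn0, _, _⟩ := hCTN D hD hs
  have hDm : MeasurableSet D := hD.cpt.measurableSet
  constructor
  · have h1 := polar_gen (D.indicator (fun _ => (1 : ℝ))) (rad D) (fun _ => 1) 0 hc
      continuous_const (fun φ => (hpos φ).le) (by
        intro r φ hr
        have := hmem φ r hr.le
        simp only [indicator, pow_zero, one_mul]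
        by_cases h : r ≤ rad D φ
        · rw [if_pos h, if_pos (this.2 h)]
        · rw [if_neg h, if_neg (fun h' => h (this.1 h'))])
    rw [integral_indicator hDm, setIntegral_const, smul_eq_mul, mul_one] at h1
    have h2 : vl D = volume.real D := rfl
    rw [h2, h1, ← integral_const_mul]
    congr 1
    funext φ
    push_cast
    ring
  · have h1 := polar_gen (D.indicator (nrm D)) (rad D)
      (fun φ => nrm D (Real.cos φ, Real.sin φ)) 1 hc
      (hn.comp (by fun_prop)) (fun φ => (hpos φ).le) (by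
        intro r φ hr
        have := hmem φ r hr.le
        have h3 : nrm D (r * Real.cos φ, r * Real.sin φ) =
            r * nrm D (Real.cos φ, Real.sin φ) := hhom r (Real.cos φ, Real.sin φ) hr.le
        simp only [indicator, pow_one]
        by_cases h : r ≤ rad D φ
        · rw [if_pos h, if_pos (this.2 h), h3]
        · rw [if_neg h, if_neg (fun h' => h (this.1 h'))])
    rw [integral_indicator hDm] at h1
    rw [h1, ← integral_const_mul]
    congr 1
    funext φ
    push_cast
    ring

end Pool.Agent.Helper3.CB.Pol
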