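import Pool.Agent.Helper97.CB.St

/-!
Project CB, module ROT (rotations).
-/

open MeasureTheory Set Filter
open scoped Pointwise Topology

set_option autoImplicit false

namespace Pool.Agent.Helper3.CB

open Helper97.CB

theorem cr_mul (u z w : ℂ) : cr (u * z) (u * w) = Complex.normSq u * cr z w := by
  simp only [cr, Complex.mul_re, Complex.mul_im, Complex.normSq_apply]
  ring

theorem hROT : StRot := by
  intro K u hu hK
  have hu0 : u ≠ 0 := by
    intro h
    rw [h, norm_zero] at hu
    exact zero_ne_one hu
  have hns : Complex.normSq u = 1 := by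
    rw [Complex.normSq_eq_norm_sq, hu]; norm_num
  -- the linear isometry
  let e : ℂ ≃ₗᵢ[ℝ] ℂ := rotation ⟨u, by simpa [Submonoid.unitSphere] using hu⟩
  have he : ∀ z, e z = u * z := fun z => rfl
  have hfun : (fun z => u * z) = ⇑e := by
    funext z; exact (he z).symm
  have hmem : ∀ z, u * z ∈ (fun z => u * z) '' K ↔ z ∈ K := by
    intro z
    constructor
    · rintro ⟨w, hw, hwz⟩
      have : w = z := mul_left_cancel₀ hu0 hwz
      rwa [← this]
    · intro hz
      exact ⟨z, hz, rfl⟩
  refine ⟨⟨?_, ?_, ?_⟩, ?_, ?_⟩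
  · rw [hfun]
    exact hK.1.linear_image e.toLinearEquiv.toLinearMap
  · rw [hfun]
    exact hK.2.1.image e.continuous
  · rw [hfun]
    have : interior (⇑e '' K) = ⇑e '' interior K := (e.toHomeomorph.image_interior K).symm
    rw [this]
    exact hK.2.2.image _
  · unfold area
    rw [hfun]
    have := e.measurePreserving.measure_preimage (s := ⇑e '' K)
      ((hK.2.1.image e.continuous).measurableSet.nullMeasurableSet)
    rw [preimage_image_eq _ e.injective] at this
    rw [this]
  · intro B hB P a b γ φ c f h
    obtain ⟨hcr, hγ, hφ, hc, hf, p1, p2, p3, p4, p5, p6⟩ := h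
    have hdiv : ∀ z, u * (u⁻¹ * z) = z := fun z => by
      rw [← mul_assoc, mul_inv_cancel₀ hu0, one_mul]
    have hcr' : cr (u⁻¹ * a) (u⁻¹ * b) = cr a b := by
      have := cr_mul u (u⁻¹ * a) (u⁻¹ * b)
      rw [hdiv, hdiv, hns, one_mul] at this
      exact this.symm
    have key : ∀ z, z ∈ (fun z => u * z) '' K → u⁻¹ * z ∈ K := by
      intro z hz
      rw [← hmem, hdiv]
      exact hz
    have hH : Hex K (u⁻¹ * P) (u⁻¹ * a) (u⁻¹ * b) γ φ c f := by
      refine ⟨by rw [hcr']; exact hcr, hγ, hφ, hc, hf, key _ p1, ?_, ?_, ?_, ?_, ?_⟩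
      · have := key _ p2
        rwa [mul_add] at this
      · have := key _ p3
        rwa [mul_add] at this
      · have := key _ p4
        rwa [mul_add, mul_add] at this
      · have := key _ p5
        convert this using 1
        ring
      · have := key _ p6
        convert this using 1
        ring
    have := hB _ _ _ _ _ _ _ hH
    rwa [hcr'] at this

end Pool.Agent.Helper3.CB
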