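import Pool.Agent.Helper97.CB.St

/-!
Project CB, module SML (all hexagons are small if the covering density is large).
-/

open MeasureTheory Set Filter
open scoped Pointwise Topology

set_option autoImplicit false

namespace Pool.Agent.Helper3.CB

open Helper97.CB

theorem area_pos {K : Set ℂ} (hK : IsBody K) : 0 < area K := by
  unfold area
  apply ENNReal.toReal_pos
  · have h1 : 0 < volume (interior K) := isOpen_interior.measure_pos volume hK.2.2
    exact (h1.trans_le (measure_mono interior_subset)).ne'
  · exact hK.2.1.measure_lt_top.ne

theorem hSML (h : StThe) : StSml := by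
  intro K hK m hm hne P a b γ φ c f hH
  by_contra hge
  push Not at hge
  apply hne
  have hA := area_pos hK
  have hpos : 0 < (2 + γ + φ) * cr a b := mul_pos (by linarith [hH.2.1, hH.2.2.1]) hH.1
  refine (h K hK P a b γ φ c f hH).trans (ENNReal.ofReal_le_ofReal ?_)
  rw [div_le_div_iff₀ hpos hm]
  linarith

end Pool.Agent.Helper3.CB
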