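import Pool.Agent.Helper97.CB.St

/-!
Project CB, module THE (limit of the double lattice coverings).
-/

open MeasureTheory Set Filter
open scoped Pointwise Topology

set_option autoImplicit false

namespace Pool.Agent.Helper3.CB

open Helper97.CB

theorem cr_comb (x y : ℝ) (a b : ℂ) : cr ((x : ℂ) * a + (y : ℂ) * b) b = x * cr a b := by
  simp only [cr, Complex.add_re, Complex.add_im, Complex.mul_re, Complex.mul_im,
    Complex.ofReal_re, Complex.ofReal_im]
  ring

theorem the_eps (h₁ : StCov) (h₂ : StLim) (K : Set ℂ) (hK : IsBody K) (P a b : ℂ)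
    (γ φ c f : ℝ) (h : Hex K P a b γ φ c f) (ε : ℝ) (h0 : 0 < ε) (h1 : ε < 1) :
    theta K ≤ ENNReal.ofReal
      (2 * area K / ((2 + (1 - ε) * γ + (1 - ε) * φ) * cr a b)) := by
  obtain ⟨hcr, hγ, hφ, hc, hf, p1, p2, p3, p4, p5, p6⟩ := h
  have hconv := hK.1
  have m1 : P + a + (1 / 2 : ℂ) * b ∈ K := by
    have := hconv p2 p4 (a := 1 / 2) (b := 1 / 2) (by norm_num) (by norm_num) (by norm_num)
    convert this using 1
    simp only [Complex.real_smul]
    push_cast
    ring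
  have m2 : P + (1 / 2 : ℂ) * b ∈ K := by
    have := hconv p1 p3 (a := 1 / 2) (b := 1 / 2) (by norm_num) (by norm_num) (by norm_num)
    convert this using 1
    simp only [Complex.real_smul]
    push_cast
    ring
  have q5 : P + ((1 + (1 - ε) * γ : ℝ) : ℂ) * a + (((1 - ε) * c + ε / 2 : ℝ) : ℂ) * b ∈ K := by
    have := hconv p5 m1 (a := 1 - ε) (b := ε) (by linarith) h0.le (by ring)
    convert this using 1
    simp only [Complex.real_smul]
    push_cast
    ring
  have q6 : P - (((1 - ε) * φ : ℝ) : ℂ) * a + (((1 - ε) * f + ε / 2 : ℝ) : ℂ) * b ∈ K := by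
    have := hconv p6 m2 (a := 1 - ε) (b := ε) (by linarith) h0.le (by ring)
    convert this using 1
    simp only [Complex.real_smul]
    push_cast
    ring
  have hγ' : 0 ≤ (1 - ε) * γ := mul_nonneg (by linarith) hγ
  have hφ' : 0 ≤ (1 - ε) * φ := mul_nonneg (by linarith) hφ
  have hc' : (1 - ε) * c + ε / 2 ∈ Ioo (0 : ℝ) 1 := by
    constructor
    · have := mul_nonneg (by linarith : (0 : ℝ) ≤ 1 - ε) hc.1
      linarith
    · have := mul_le_mul_of_nonneg_left hc.2 (by linarith : (0 : ℝ) ≤ 1 - ε)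
      linarith
  have hf' : (1 - ε) * f + ε / 2 ∈ Ioo (0 : ℝ) 1 := by
    constructor
    · have := mul_nonneg (by linarith : (0 : ℝ) ≤ 1 - ε) hf.1
      linarith
    · have := mul_le_mul_of_nonneg_left hf.2 (by linarith : (0 : ℝ) ≤ 1 - ε)
      linarith
  have hcov := h₁ K hconv P a b _ _ _ _ hcr hγ' hφ' hc' hf' p1 p2 p3 p4 q5 q6
  have hw := cr_comb (2 + (1 - ε) * γ + (1 - ε) * φ)
    (((1 - ε) * c + ε / 2) - ((1 - ε) * f + ε / 2)) a b
  have hpos : 0 < (2 + (1 - ε) * γ + (1 - ε) * φ) * cr a b :=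
    mul_pos (by linarith) hcr
  have := h₂ K b _ _ hK.2.1 (by rw [hw]; exact hpos) hcov
  rwa [hw] at this

theorem hTHE (h₁ : StCov) (h₂ : StLim) : StThe := by
  intro K hK P a b γ φ c f h
  have hcr := h.1
  have hγ := h.2.1
  have hφ := h.2.2.1
  have hcont : Tendsto (fun ε : ℝ => ENNReal.ofReal
      (2 * area K / ((2 + (1 - ε) * γ + (1 - ε) * φ) * cr a b))) (𝓝[>] 0)
      (𝓝 (ENNReal.ofReal (2 * area K / ((2 + γ + φ) * cr a b)))) := by
    apply ENNReal.tendsto_ofReal
    have hden : Tendsto (fun ε : ℝ => (2 + (1 - ε) * γ + (1 - ε) * φ) * cr a b) (𝓝[>] 0)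
        (𝓝 ((2 + γ + φ) * cr a b)) := by
      have : Continuous (fun ε : ℝ => (2 + (1 - ε) * γ + (1 - ε) * φ) * cr a b) := by
        fun_prop
      have h2 := (this.tendsto 0).mono_left (nhdsWithin_le_nhds (s := Ioi 0))
      simpa using h2
    exact Tendsto.div tendsto_const_nhds hden (mul_pos (by linarith) hcr).ne'
  refine ge_of_tendsto hcont ?_
  have hmem : Ioo (0 : ℝ) 1 ∈ 𝓝[>] (0 : ℝ) := Ioo_mem_nhdsGT one_pos
  filter_upwards [hmem] with ε hε
  exact the_eps h₁ h₂ K hK P a b γ φ c f h ε hε.1 hε.2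

end Pool.Agent.Helper3.CB
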